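import Pool.Agent.W300.FT.Stm

set_option autoImplicit false

/-! Part DENS of project FT. -/

namespace Pool.Agent.W569.FT

open MeasureTheory ProbabilityTheory Pool.Agent.W300.FT

/-- at least two neighbours in `W` -/
def W1 {V : Type} (G : SimpleGraph V) {Ω : Type} (W : V → Set Ω) (v : V) : Set Ω :=
  {ω | ω ∈ W v ∧ ∃ a b, G.Adj v a ∧ G.Adj v b ∧ a ≠ b ∧ ω ∈ W a ∧ ω ∈ W b}

section

variable {V : Type} (G : SimpleGraph V) {Ω : Type} [MeasurableSpace Ω]

theorem W1_meas [Countable V] (W : V → Set Ω) (hW : ∀ v, MeasurableSet (W v)) (v : V) :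
    MeasurableSet (W1 G W v) := by
  have h1 : W1 G W v =
      W v ∩ ⋃ a, ⋃ b, ⋃ (_ : G.Adj v a ∧ G.Adj v b ∧ a ≠ b), (W a ∩ W b) := by
    ext ω
    simp only [W1, Set.mem_setOf_eq, Set.mem_inter_iff, Set.mem_iUnion]
    constructor
    · rintro ⟨h0, a, b, ha, hb, hab, h2, h3⟩
      exact ⟨h0, a, b, ⟨ha, hb, hab⟩, h2, h3⟩
    · rintro ⟨h0, a, b, ⟨ha, hb, hab⟩, h2, h3⟩
      exact ⟨h0, a, b, ha, hb, hab, h2, h3⟩
  rw [h1]
  exact (hW v).inter (MeasurableSet.iUnion fun a => MeasurableSet.iUnion fun b =>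
    MeasurableSet.iUnion fun _ => (hW a).inter (hW b))

theorem W1_eqv [Countable V] (P : Measure Ω) (T : (G ≃g G) → Ω → Ω) (W : V → Set Ω)
    (h : ∀ φ v, ∀ᵐ ω ∂P, T φ ω ∈ W v ↔ ω ∈ W (φ v)) (φ : G ≃g G) (v : V) :
    ∀ᵐ ω ∂P, T φ ω ∈ W1 G W v ↔ ω ∈ W1 G W (φ v) := by
  have h1 : ∀ᵐ ω ∂P, ∀ u, (T φ ω ∈ W u ↔ ω ∈ W (φ u)) := ae_all_iff.2 (fun u => h φ u)
  filter_upwards [h1] with ω hω
  constructor
  · rintro ⟨h0, a, b, ha, hb, hab, h2, h3⟩
    exact ⟨(hω v).1 h0, φ a, φ b, φ.map_adj_iff.2 ha, φ.map_adj_iff.2 hb,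
      fun h => hab (φ.injective h), (hω a).1 h2, (hω b).1 h3⟩
  · rintro ⟨h0, a, b, ha, hb, hab, h2, h3⟩
    refine ⟨(hω v).2 h0, φ.symm a, φ.symm b, ?_, ?_, ?_, ?_, ?_⟩
    · rw [← φ.map_adj_iff]
      simpa using ha
    · rw [← φ.map_adj_iff]
      simpa using hb
    · intro h
      exact hab (φ.symm.injective h)
    · rw [hω]
      simpa using h2
    · rw [hω]
      simpa using h3

theorem swap (P : Measure Ω) (T : (G ≃g G) → Ω → Ω) (hT : ∀ φ, MeasurePreserving (T φ) P P)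
    (A B : V → Set Ω) (hA : ∀ v, MeasurableSet (A v)) (hB : ∀ v, MeasurableSet (B v))
    (eA : ∀ φ v, ∀ᵐ ω ∂P, T φ ω ∈ A v ↔ ω ∈ A (φ v))
    (eB : ∀ φ v, ∀ᵐ ω ∂P, T φ ω ∈ B v ↔ ω ∈ B (φ v)) (φ : G ≃g G) (u v : V) (h1 : φ u = v)
    (h2 : φ v = u) : P (A v ∩ B u) = P (A u ∩ B v) := by
  rw [← (hT φ).measure_preimage ((hA v).inter (hB u)).nullMeasurableSet]
  apply measure_congr
  filter_upwards [eA φ v, eB φ u] with ω a1 a2
  apply propext
  show (T φ ω ∈ A v ∧ T φ ω ∈ B u) ↔ (ω ∈ A u ∧ ω ∈ B v)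
  rw [a1, a2, h1, h2]

theorem sum_disj (P : Measure Ω) (A : Set Ω) (hA : MeasurableSet A) (W : V → Set Ω)
    (hW : ∀ v, MeasurableSet (W v)) (s : Finset V)
    (h : ∀ ω ∈ A, ∀ a ∈ s, ∀ b ∈ s, ω ∈ W a → ω ∈ W b → a = b) :
    ∑ u ∈ s, P (A ∩ W u) ≤ P A := by
  rw [← measure_biUnion_finset]
  · apply measure_mono
    intro ω hω
    simp only [Set.mem_iUnion] at hω
    obtain ⟨u, -, h1, -⟩ := hω
    exact h1
  · intro a ha b hb hab
    rw [Function.onFun, Set.disjoint_left]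
    rintro ω ⟨h1, h2⟩ ⟨-, h3⟩
    exact hab (h ω h1 a ha b hb h2 h3)
  · intro u _
    exact hA.inter (hW u)

theorem claim [Countable V] (nb : V → Finset V) (hnb : ∀ v u, u ∈ nb v ↔ G.Adj v u)
    (hsw : ∀ u v : V, G.Adj u v → ∃ φ : G ≃g G, φ u = v ∧ φ v = u)
    (P : Measure Ω) (T : (G ≃g G) → Ω → Ω) (hT : ∀ φ, MeasurePreserving (T φ) P P) (n : ℕ) :
    ∀ W : V → Set Ω, (∀ v, MeasurableSet (W v)) →
      (∀ φ v, ∀ᵐ ω ∂P, T φ ω ∈ W v ↔ ω ∈ W (φ v)) →
      (∀ᵐ ω ∂P, ∀ γ : ℕ → V, NB G n γ → ¬ ∀ j ≤ n, ω ∈ W (γ j)) →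
      ∀ v, ∑ u ∈ nb v, P (W v ∩ W u) ≤ 2 * P (W v) := by
  induction n using Nat.twoStepInduction with
  | zero =>
    intro W hW hE hN v
    have h0 : ∀ u, P (W v ∩ W u) = 0 := by
      intro u
      rw [← compl_compl (W v ∩ W u)]
      show P (W v ∩ W u)ᶜᶜ = 0
      rw [← mem_ae_iff]
      filter_upwards [hN] with ω hω
      intro h
      exact hω (fun _ => v) ⟨fun j hj => absurd hj (by omega), fun j hj => absurd hj (by omega)⟩
        (fun j _ => h.1)
    simp [h0]
  | one =>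
    intro W hW hE hN v
    have h0 : ∀ u ∈ nb v, P (W v ∩ W u) = 0 := by
      intro u hu
      rw [← compl_compl (W v ∩ W u), ← mem_ae_iff]
      filter_upwards [hN] with ω hω
      intro h
      refine hω (fun j => if j = 0 then v else u) ⟨fun j hj => ?_, fun j hj => absurd hj (by omega)⟩
        (fun j hj => ?_)
      · have : j = 0 := by omega
        subst this
        simpa using (hnb v u).1 hu
      · rcases Nat.eq_zero_or_pos j with h3 | h3
        · simp [h3, h.1]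
        · have : j ≠ 0 := by omega
          simp [this, h.2]
    rw [Finset.sum_eq_zero h0]
    exact bot_le
  | more n ih _ =>
    intro W hW hE hN v
    have hm1 := W1_meas G W hW
    have he1 := W1_eqv G P T W hE
    set L : V → Set Ω := fun v => W v \ W1 G W v with hL
    have hmL : ∀ v, MeasurableSet (L v) := fun v => (hW v).diff (hm1 v)
    have heL : ∀ φ v, ∀ᵐ ω ∂P, T φ ω ∈ L v ↔ ω ∈ L (φ v) := by
      intro φ v
      filter_upwards [hE φ v, he1 φ v] with ω a1 a2
      show (T φ ω ∈ W v ∧ T φ ω ∉ W1 G W v) ↔ (ω ∈ W (φ v) ∧ ω ∉ W1 G W (φ v))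
      rw [a1, a2]
    have hsub : ∀ v, W1 G W v ⊆ W v := fun v ω h => h.1
    have hN1 : ∀ᵐ ω ∂P, ∀ γ : ℕ → V, NB G n γ → ¬ ∀ j ≤ n, ω ∈ W1 G W (γ j) := by
      filter_upwards [hN] with ω hω
      intro γ hγ hall
      obtain ⟨-, a0, b0, ha0, hb0, hab0, hwa0, hwb0⟩ := hall 0 (by omega)
      obtain ⟨-, a1, b1, ha1, hb1, hab1, hwa1, hwb1⟩ := hall n le_rfl
      obtain ⟨a, ha, hwa, hane⟩ : ∃ a, G.Adj (γ 0) a ∧ ω ∈ W a ∧ (1 ≤ n → a ≠ γ 1) := by
        by_cases h : a0 = γ 1
        · exact ⟨b0, hb0, hwb0, fun _ h' => hab0 (h.trans h'.symm)⟩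
        · exact ⟨a0, ha0, hwa0, fun _ => h⟩
      obtain ⟨b, hb, hwb, hbne, hbne0⟩ : ∃ b, G.Adj (γ n) b ∧ ω ∈ W b ∧
          (1 ≤ n → b ≠ γ (n - 1)) ∧ (n = 0 → a ≠ b) := by
        by_cases hn : n = 0
        · by_cases h : a = a1
          · exact ⟨b1, hb1, hwb1, fun h' => absurd h' (by omega), fun _ h' => hab1 (h ▸ h')⟩
          · exact ⟨a1, ha1, hwa1, fun h' => absurd h' (by omega), fun _ => h⟩
        · by_cases h : a1 = γ (n - 1)
          · exact ⟨b1, hb1, hwb1, fun _ h' => hab1 (h.trans h'.symm), fun h' => absurd h' hn⟩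
          · exact ⟨a1, ha1, hwa1, fun _ => h, fun h' => absurd h' hn⟩
      let γ' : ℕ → V := fun j => if j = 0 then a else if j = n + 2 then b else γ (j - 1)
      have g0 : γ' 0 = a := by simp [γ']
      have gl : γ' (n + 2) = b := by simp [γ']
      have gm : ∀ j, j ≤ n → γ' (j + 1) = γ j := by
        intro j hj
        have h1 : j + 1 ≠ n + 2 := by omega
        have h2 : j ≠ n + 1 := by omega
        simp [γ', h2]
      refine hω γ' ⟨?_, ?_⟩ ?_
      · intro j hj
        rcases Nat.eq_zero_or_pos j with h | h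
        · subst h
          rw [g0, gm 0 (by omega)]
          exact ha.symm
        · obtain ⟨i, rfl⟩ : ∃ i, j = i + 1 := ⟨j - 1, by omega⟩
          rw [gm i (by omega)]
          by_cases h' : i = n
          · subst h'
            rw [gl]
            exact hb
          · rw [gm (i + 1) (by omega)]
            exact hγ.1 i (by omega)
      · intro j hj
        rcases Nat.eq_zero_or_pos j with h | h
        · subst h
          rw [g0]
          by_cases h' : n = 0
          · subst h'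
            rw [gl]
            exact hbne0 rfl
          · rw [gm 1 (by omega)]
            exact hane (by omega)
        · obtain ⟨i, rfl⟩ : ∃ i, j = i + 1 := ⟨j - 1, by omega⟩
          rw [gm i (by omega)]
          by_cases h' : i + 1 = n
          · have h4 : i + 1 + 2 = n + 2 := by omega
            rw [h4, gl]
            have h5 : i = n - 1 := by omega
            rw [h5]
            exact (hbne (by omega)).symm
          · have h4 : i + 1 + 2 = (i + 2) + 1 := by omega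
            rw [h4, gm (i + 2) (by omega)]
            exact hγ.2 i (by omega)
      · intro j hj
        rcases Nat.eq_zero_or_pos j with h | h
        · subst h
          rw [g0]
          exact hwa
        · obtain ⟨i, rfl⟩ : ∃ i, j = i + 1 := ⟨j - 1, by omega⟩
          by_cases h' : i = n + 1
          · subst h'
            rw [gl]
            exact hwb
          · rw [gm i (by omega)]
            exact (hall i (by omega)).1
    have hIH := ih (W1 G W) hm1 he1 hN1 v
    -- splitting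
    have hsplit : ∀ u, P (W v ∩ W u) ≤
        P (W1 G W v ∩ W1 G W u) + P (W1 G W v ∩ L u) + P (L v ∩ W u) := by
      intro u
      refine (measure_mono ?_).trans ((measure_union_le _ _).trans
        (add_le_add_left (measure_union_le _ _) _))
      rintro ω ⟨h1, h2⟩
      by_cases h3 : ω ∈ W1 G W v
      · by_cases h4 : ω ∈ W1 G W u
        · exact Or.inl (Or.inl ⟨h3, h4⟩)
        · exact Or.inl (Or.inr ⟨h3, h2, h4⟩)
      · exact Or.inr ⟨⟨h1, h3⟩, h2⟩
    have hone : ∀ ω ∈ L v, ∀ a ∈ nb v, ∀ b ∈ nb v, ω ∈ W a → ω ∈ W b → a = b := by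
      rintro ω ⟨h1, h2⟩ a ha b hb h3 h4
      by_contra hab
      exact h2 ⟨h1, a, b, (hnb v a).1 ha, (hnb v b).1 hb, hab, h3, h4⟩
    have hlast : ∑ u ∈ nb v, P (L v ∩ W u) ≤ P (L v) :=
      sum_disj P (L v) (hmL v) W hW (nb v) hone
    have hmid : ∑ u ∈ nb v, P (W1 G W v ∩ L u) ≤ P (L v) := by
      have h1 : ∀ u ∈ nb v, P (W1 G W v ∩ L u) ≤ P (L v ∩ W u) := by
        intro u hu
        obtain ⟨φ, e1, e2⟩ := hsw v u ((hnb v u).1 hu)
        rw [swap G P T hT (W1 G W) L hm1 hmL he1 heL φ u v e2 e1, Set.inter_comm]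
        exact measure_mono (Set.inter_subset_inter_right _ (hsub u))
      exact (Finset.sum_le_sum h1).trans hlast
    have hadd : P (W1 G W v) + P (L v) = P (W v) := by
      have := measure_inter_add_diff (μ := P) (W v) (hm1 v)
      rwa [Set.inter_eq_self_of_subset_right (hsub v)] at this
    calc ∑ u ∈ nb v, P (W v ∩ W u) ≤ ∑ u ∈ nb v,
          (P (W1 G W v ∩ W1 G W u) + P (W1 G W v ∩ L u) + P (L v ∩ W u)) :=
          Finset.sum_le_sum fun u _ => hsplit u
      _ = ∑ u ∈ nb v, P (W1 G W v ∩ W1 G W u) + ∑ u ∈ nb v, P (W1 G W v ∩ L u) +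
          ∑ u ∈ nb v, P (L v ∩ W u) := by
          rw [Finset.sum_add_distrib, Finset.sum_add_distrib]
      _ ≤ 2 * P (W1 G W v) + P (L v) + P (L v) := add_le_add (add_le_add hIH hmid) hlast
      _ = 2 * P (W v) := by
          rw [← hadd]
          ring

end

theorem dens : S_DENS := by
  intro V G hV hdeg hsw Ω _ P hP T D n hT hD hE hN v
  classical
  have hfin : ∀ v, (G.neighborSet v).Finite := fun v =>
    Set.finite_of_ncard_pos (by rw [hdeg v]; norm_num)
  let nb : V → Finset V := fun v => (hfin v).toFinset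
  have hnb : ∀ v u, u ∈ nb v ↔ G.Adj v u := by
    intro v u
    simp [nb]
  have hcard : (nb v).card = 3 := by
    rw [← hdeg v, Set.ncard_eq_toFinset_card _ (hfin v)]
  have key := claim G nb hnb hsw P T hT n (fun v => (D v)ᶜ) (fun v => (hD v).compl) (by
    intro φ v
    filter_upwards [hE φ v] with ω h
    simp only [Set.mem_compl_iff]
    rw [h]) (by
    filter_upwards [hN] with ω h
    intro γ hγ hall
    obtain ⟨j, hj, hw⟩ := h γ hγ
    exact hall j hj hw) v
  have hDu : ∀ u ∈ nb v, P (D u) = P (D v) := by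
    intro u hu
    obtain ⟨φ, e1, e2⟩ := hsw v u ((hnb v u).1 hu)
    have := swap G P T hT D D hD hD hE hE φ u v e2 e1
    have h1 := (hT φ).measure_preimage (hD v).nullMeasurableSet
    rw [← h1]
    apply measure_congr
    filter_upwards [hE φ v] with ω a1
    apply propext
    show ω ∈ D u ↔ T φ ω ∈ D v
    rw [a1, e1]
  set p : ℝ := (P (D v)).toReal with hp
  have hlow : ∀ u ∈ nb v, ENNReal.ofReal (1 - 2 * p) ≤ P ((D v)ᶜ ∩ (D u)ᶜ) := by
    intro u hu
    have h1 : (D v)ᶜ ∩ (D u)ᶜ = (D v ∪ D u)ᶜ := by rw [Set.compl_union]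
    rw [h1]
    apply ENNReal.ofReal_le_of_le_toReal
    have h2 : (P (D v ∪ D u)ᶜ).toReal = 1 - (P (D v ∪ D u)).toReal := by
      have := probReal_compl_eq_one_sub (μ := P) ((hD v).union (hD u))
      exact this
    rw [h2]
    have h3 : (P (D v ∪ D u)).toReal ≤ 2 * p := by
      have h4 : P (D v ∪ D u) ≤ P (D v) + P (D u) := measure_union_le _ _
      rw [hDu u hu] at h4
      have h5 := ENNReal.toReal_mono (by finiteness) h4
      rw [ENNReal.toReal_add (by finiteness) (by finiteness)] at h5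
      linarith
    linarith
  have hsum : ENNReal.ofReal (3 * (1 - 2 * p)) ≤ 2 * P (D v)ᶜ := by
    refine le_trans ?_ key
    refine le_trans ?_ (Finset.sum_le_sum hlow)
    rw [Finset.sum_const, hcard, nsmul_eq_mul, ENNReal.ofReal_mul (by norm_num)]
    norm_num
  have hreal : 3 * (1 - 2 * p) ≤ 2 * (1 - p) := by
    have h1 : P (D v)ᶜ = ENNReal.ofReal (1 - p) := by
      have := probReal_compl_eq_one_sub (μ := P) (hD v)
      rw [← ENNReal.ofReal_toReal (measure_ne_top P (D v)ᶜ)]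
      congr 1
    have hp1 : p ≤ 1 := by
      rw [hp]
      exact ENNReal.toReal_le_of_le_ofReal zero_le_one (by simpa using prob_le_one)
    rw [h1, show (2 : ENNReal) = ENNReal.ofReal 2 by norm_num,
      ← ENNReal.ofReal_mul (by norm_num)] at hsum
    exact (ENNReal.ofReal_le_ofReal_iff (by linarith)).1 hsum
  have hfinal : (1 / 6 : ℝ) ≤ p := by linarith
  have h7 : ENNReal.ofReal (1 / 6) ≤ P (D v) := ENNReal.ofReal_le_of_le_toReal hfinal
  have h8 : (1 / 6 : ENNReal) = ENNReal.ofReal (1 / 6) := by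
    rw [ENNReal.ofReal_div_of_pos (by norm_num)]
    norm_num
  rw [h8]
  exact h7

end Pool.Agent.W569.FT
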