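import Pool.Agent.W300.FT.Stm

set_option autoImplicit false

namespace Pool.Agent.W569.FT

open MeasureTheory ProbabilityTheory Pool.Agent.W300.FT

theorem meas_mix {V X : Type} [MeasurableSpace X] (N : Set V) (f g : X → V → unitInterval)
    (hf : Measurable f) (hg : Measurable g) : Measurable (fun x => mix N (f x) (g x)) := by
  classical
  rw [measurable_pi_iff]
  intro u
  unfold mix
  by_cases h : u ∈ N
  · simp only [h, if_true]
    exact (measurable_pi_apply u).comp hf
  · simp only [h, if_false]
    exact (measurable_pi_apply u).comp hg

theorem loc1 : S_LOC1 := by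
  classical
  intro V G F hV hF m v
  haveI : IsProbabilityMeasure (PI V) := by unfold PI; infer_instance
  have hF' : ∀ k : K, Measurable (fun y : V → unitInterval => F y v k) := fun k =>
    (measurable_pi_apply k).comp ((measurable_pi_apply v).comp hF)
  constructor
  · let S : Set ((V → unitInterval) × ((V → unitInterval) × (V → unitInterval))) :=
      {q | ¬ F (mix (Bal G m v) q.1 q.2.1) v = F (mix (Bal G m v) q.1 q.2.2) v}
    have hE : MeasurableSet {q : (V → unitInterval) × ((V → unitInterval) × (V → unitInterval)) |
          F (mix (Bal G m v) q.1 q.2.1) v = F (mix (Bal G m v) q.1 q.2.2) v} := by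
      have : {q : (V → unitInterval) × ((V → unitInterval) × (V → unitInterval)) |
          F (mix (Bal G m v) q.1 q.2.1) v = F (mix (Bal G m v) q.1 q.2.2) v} =
          ⋂ k : K, {q | F (mix (Bal G m v) q.1 q.2.1) v k = F (mix (Bal G m v) q.1 q.2.2) v k} := by
        ext q
        simp only [Set.mem_setOf_eq, Set.mem_iInter]
        exact funext_iff
      rw [this]
      apply MeasurableSet.iInter
      intro k
      apply measurableSet_eq_fun
      · exact (hF' k).comp (meas_mix _ _ _ measurable_fst (measurable_fst.comp measurable_snd))
      · exact (hF' k).comp (meas_mix _ _ _ measurable_fst (measurable_snd.comp measurable_snd))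
    have hS : MeasurableSet S := hE.compl
    have h1 : Measurable (fun y : V → unitInterval =>
        ((PI V).prod (PI V)) (Prod.mk y ⁻¹' S)) := measurable_measure_prodMk_left hS
    have h2 : Loc G F m v = {y | ((PI V).prod (PI V)) (Prod.mk y ⁻¹' S) = 0} := by
      ext y
      unfold Loc
      simp only [Set.mem_setOf_eq]
      rw [ae_iff]
      rfl
    rw [h2]
    exact h1 (measurableSet_singleton 0)
  · rw [measurable_pi_iff]
    intro k
    have hS : MeasurableSet {q : (V → unitInterval) × (V → unitInterval) |
        F (mix (Bal G m v) q.1 q.2) v k = true} := by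
      have : Measurable (fun q : (V → unitInterval) × (V → unitInterval) =>
          F (mix (Bal G m v) q.1 q.2) v k) :=
        (hF' k).comp (meas_mix _ _ _ measurable_fst measurable_snd)
      exact this (measurableSet_singleton true)
    have h1 : Measurable (fun y : V → unitInterval =>
        (PI V) (Prod.mk y ⁻¹' {q : (V → unitInterval) × (V → unitInterval) |
        F (mix (Bal G m v) q.1 q.2) v k = true})) := measurable_measure_prodMk_left hS
    apply measurable_to_bool
    have h3 : (fun y => Gf G F m v y k) ⁻¹' {true} = {y | 1 / 2 <
        (PI V) (Prod.mk y ⁻¹' {q : (V → unitInterval) × (V → unitInterval) |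
        F (mix (Bal G m v) q.1 q.2) v k = true})} := by
      ext y
      unfold Gf
      simp only [Set.mem_preimage, Set.mem_singleton_iff, decide_eq_true_eq, Set.mem_setOf_eq]
      rfl
    rw [h3]
    exact measurableSet_lt measurable_const h1

end Pool.Agent.W569.FT
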